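import Pool.Agent.helper80.EN.Spec

/-!
# Abelian groups are in `InL` (row EN/LAB)
-/

set_option autoImplicit false

namespace Pool.Agent.helper80.EN

open Subgroup

universe u

/-- Cyclic groups are in `InL`. -/
theorem LAB_cyc (hLFI : LFI_stmt.{u}) (C : Type u) [Group C] (g : C) (hg : zpowers g = ⊤) : InL C := by
  classical
  rcases finite_or_infinite C with hfin | hinf
  · exact hLFI C hfin
  · have e : Multiplicative ℤ ≃* C := intEquivOfZPowersEqTop g hg
    -- the unit `2` of `ULift ℚ`
    let two : (ULift.{u} ℚ)ˣ := Units.mk0 (ULift.up (2 : ℚ)) (by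
      intro h
      have := congrArg ULift.down h
      simp at this)
    let m : Multiplicative ℤ →* Matrix (Fin 1) (Fin 1) (ULift.{u} ℚ) :=
      ((Matrix.scalar (Fin 1) : ULift.{u} ℚ →+* Matrix (Fin 1) (Fin 1) (ULift.{u} ℚ)) :
        ULift.{u} ℚ →* Matrix (Fin 1) (Fin 1) (ULift.{u} ℚ)).comp
        ((Units.coeHom (ULift.{u} ℚ)).comp (zpowersHom (ULift.{u} ℚ)ˣ two))
    have hm : Function.Injective m := by
      intro a b hab
      have h1 : ((two ^ (Multiplicative.toAdd a) : (ULift.{u} ℚ)ˣ) : ULift.{u} ℚ)
          = ((two ^ (Multiplicative.toAdd b) : (ULift.{u} ℚ)ˣ) : ULift.{u} ℚ) := by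
        have := congrFun (congrFun hab 0) 0
        simpa [m] using this
      have h2 : ((2 : ℚ) ^ (Multiplicative.toAdd a)) = (2 : ℚ) ^ (Multiplicative.toAdd b) := by
        have h3 := congrArg ULift.down h1
        have h4 : ∀ k : ℤ, ((two ^ k : (ULift.{u} ℚ)ˣ) : ULift.{u} ℚ).down = (2 : ℚ) ^ k := by
          intro k
          rw [Units.val_zpow_eq_zpow_val]
          have : ∀ (x : ULift.{u} ℚ) (k : ℤ), (x ^ k).down = x.down ^ k := by
            intro x k
            exact map_zpow₀ (ULift.ringEquiv : ULift.{u} ℚ ≃+* ℚ) x k
          rw [this]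
          rfl
        rw [h4, h4] at h3
        exact h3
      have h5 := zpow_right_injective₀ (by norm_num : (0 : ℚ) < 2) (by norm_num : (2 : ℚ) ≠ 1) h2
      exact Multiplicative.toAdd.injective h5
    refine InL.linear (ULift.{u} ℚ) 1 ((m.comp e.symm.toMonoidHom).toHomUnits) ?_
    intro x y hxy
    have h1 : m (e.symm x) = m (e.symm y) := by
      have := congrArg Units.val hxy
      simpa using this
    exact e.symm.injective (hm h1)

/-- Finitely generated subgroups of abelian groups are in `InL`. -/
theorem LAB_fg (hLFI : LFI_stmt.{u}) (G : Type u) [Group G] (hc : ∀ a b : G, a * b = b * a)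
    (S : Finset G) : InL (closure (S : Set G)) := by
  classical
  induction S using Finset.induction_on with
  | empty =>
    refine hLFI _ ?_
    rw [Finset.coe_empty, Subgroup.closure_empty]
    infer_instance
  | insert g S _ ih =>
    set K : Subgroup G := closure ((insert g S : Finset G) : Set G) with hK
    set L : Subgroup G := closure (S : Set G) with hL
    have hLK : L ≤ K := closure_mono (by simp)
    have hgK : g ∈ K := subset_closure (by simp)
    have hN : (L.subgroupOf K).Normal := by
      refine ⟨fun n hn x => ?_⟩
      have : x * n * x⁻¹ = n := by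
        apply Subtype.ext
        push_cast
        rw [hc (x : G) n]
        simp
      rw [this]
      exact hn
    refine InL.ext (L.subgroupOf K) ?_ ?_
    · refine InL.sub (H := L)
        { toFun := fun x => ⟨((x : K) : G), x.2⟩
          map_one' := rfl
          map_mul' := fun _ _ => rfl } ?_ ih
      intro x y hxy
      apply Subtype.ext
      apply Subtype.ext
      have := congrArg (fun z : L => (z : G)) hxy
      exact this
    · refine LAB_cyc hLFI _ ((⟨g, hgK⟩ : K) : K ⧸ L.subgroupOf K) ?_
      rw [eq_top_iff]
      rintro q -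
      induction q using QuotientGroup.induction_on with
      | H x =>
        obtain ⟨x, hx⟩ := x
        -- every element of `K` is in `zpowers g ⊔ L`
        have hxs : x ∈ zpowers g ⊔ L := by
          have : K ≤ zpowers g ⊔ L := by
            rw [hK, Subgroup.closure_le]
            intro y hy
            rw [Finset.coe_insert] at hy
            rcases hy with rfl | hy
            · exact (le_sup_left : zpowers y ≤ zpowers y ⊔ L) (mem_zpowers y)
            · exact (le_sup_right : L ≤ zpowers g ⊔ L) (subset_closure hy)
          exact this hx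
        have hLn : L.Normal := ⟨fun n hn x => by
          have : x * n * x⁻¹ = n := by rw [hc x n]; simp
          rw [this]; exact hn⟩
        rw [Subgroup.mem_sup_of_normal_right] at hxs
        obtain ⟨a, ha, b, hb, hab⟩ := hxs
        obtain ⟨k, hk⟩ := mem_zpowers_iff.1 ha
        rw [mem_zpowers_iff]
        refine ⟨k, ?_⟩
        rw [← QuotientGroup.mk_zpow, QuotientGroup.eq]
        rw [mem_subgroupOf]
        push_cast
        rw [← hab, ← hk]
        simpa using hb

theorem LAB (hLFI : LFI_stmt.{u}) : LAB_stmt.{u} := by
  intro G _ hc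
  exact InL.union (fun s => closure (s : Set G)) (fun s => subset_closure)
    (fun s => LAB_fg hLFI G hc s)

end Pool.Agent.helper80.EN
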