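import Mathlib

/-!
# Project EN (MP_f42afa_pr): multi-round algorithms, the entropy theorem (helper25, idea of helper48)

THEOREM (`ENT`). Fair coins `Fin m`; `S τ` (`τ ∈ T`) algorithms in rounds; every coin of `Λ` (and `z`) is seen on average over the coins by at most `N` of them. Then for every law `Q` with density `≤ exp L` which depends only on `Λ`, every such coin is seen in the first
`j + 1` rounds on `Q`-average by at most `C_j N (L + log (#Λ + 3)) ^ j` of them.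

RULES. Row `XXX`: file `Pool/Agent/<seat>/EN/XXX.lean`, `import Pool.Agent.helper25.EN.Spec`, `set_option autoImplicit false`, `namespace EN`, `open Finset Real`; theorem with the exact line of the note; auxiliary lemmas private or prefixed `XXX_`.
No straight double quotes, no convert / congr!. A doubt about a statement: one line to helper25 at once. Cells: for adapted `C`, the cell of `x` is the set of the `y` with `y u = x u` for `u ∈ C x`. Everything is a finite sum.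
-/

set_option autoImplicit false

namespace EN

open Finset Real

/-- Configurations of `m` coins. -/
abbrev Om (m : ℕ) := Fin m → Bool

/-- Probability laws. -/
def Law {m : ℕ} (Q : Om m → ℝ) : Prop := (∀ x, 0 ≤ Q x) ∧ ∑ x, Q x = 1

/-- Probability of the values of `x` on `C`. -/
noncomputable def w {m : ℕ} (Q : Om m → ℝ) (C : Finset (Fin m)) (x : Om m) : ℝ := ∑ y with ∀ u ∈ C, y u = x u, Q y

/-- Conditional probability of the value `x v` given the values of `x` on `C`. -/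
noncomputable def a {m : ℕ} (Q : Om m → ℝ) (C : Finset (Fin m)) (v : Fin m) (x : Om m) : ℝ := w Q (insert v C) x / w Q C x

/-- Entropy of `(t, 1 - t)` relative to the fair coin. -/
noncomputable def phi (t : ℝ) : ℝ := t * log (2 * t) + (1 - t) * log (2 * (1 - t))

/-- Entropy of `(s, 1 - s)` relative to `(t, 1 - t)`. -/
noncomputable def kl (s t : ℝ) : ℝ := s * log (s / t) + (1 - s) * log ((1 - s) / (1 - t))

/-- The coins before `v`. -/
def pa {m : ℕ} (v : Fin m) : Finset (Fin m) := univ.filter fun u => u < v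

/-- Change of the coin `v`. -/
def fl {m : ℕ} (v : Fin m) (x : Om m) : Om m := Function.update x v (!x v)

/-- The set of the coins seen is determined by the coins seen. -/
def Adp {m : ℕ} (S : Om m → Finset (Fin m)) : Prop := ∀ x y : Om m, (∀ u ∈ S x, y u = x u) → S y = S x

/-- `S i x` = the coins seen in the first `i` rounds: the next batch depends only on the coins seen. -/
def Rounds {m : ℕ} (S : ℕ → Om m → Finset (Fin m)) : Prop :=
  (∀ x, S 0 x = ∅) ∧ ∀ i x, S i x ⊆ S (i + 1) x ∧ ∀ y, (∀ u ∈ S i x, y u = x u) → S (i + 1) y = S (i + 1) x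

/-- Entropy of the answers seen, relative to fair coins. -/
noncomputable def KT {m : ℕ} (Q : Om m → ℝ) (S : Om m → Finset (Fin m)) : ℝ := ∑ x, Q x * log (2 ^ #(S x) * w Q (S x) x)

/-- Upper bound for the increase of `KT` in the round `i`. -/
noncomputable def G {m : ℕ} (Q : Om m → ℝ) (S : ℕ → Om m → Finset (Fin m)) (i : ℕ) : ℝ :=
  ∑ x, Q x * ∑ v ∈ S (i + 1) x \ S i x, phi (a Q (S i x ∪ pa v) v x)

/-- Influence of the coins seen on the others. -/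
noncomputable def D {m : ℕ} (Q : Om m → ℝ) (S : ℕ → Om m → Finset (Fin m)) (i : ℕ) : ℝ :=
  ∑ x, Q x * ∑ v ∈ univ \ S i x, kl (a Q (S i x ∪ pa v) v x) (a Q (pa v) v x)

/-- Information in the fixed order, summed over the coins seen. -/
noncomputable def X {m : ℕ} (Q : Om m → ℝ) (S : Om m → Finset (Fin m)) : ℝ := ∑ x, Q x * ∑ v ∈ S x, phi (a Q (pa v) v x)

/-- **INQ** (short-medium). With `log r ≤ r - 1`: `phi t ≤ (2 t - 1) ^ 2 ≤ 1`; `kl s t ≥ 2 - 2 √(s t) - 2 √((1 - s) (1 - t)) = (√s - √t)² + (√(1-s) - √(1-t))²` (from `s log (s/t) = - 2 s log √(t/s) ≥ 2 s - 2 √(s t)`), which is `≥ 0` and `≥ (s - t)² / 2`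
(`|s - t| ≤ 2 |√s - √t|` and the same for `1 - s`, `1 - t`); `phi t = kl t (1/2)`, so `phi t ≥ (t - 1/2)² / 2`. Hence `phi s ≤ 4 (s - 1/2)² ≤ 8 (t - 1/2)² + 8 (s - t)² ≤ 16 phi t + 16 kl s t`. -/
def INQ_stmt : Prop := ∀ s t : ℝ, 0 ≤ s → s ≤ 1 → 0 ≤ t → t ≤ 1 → (t = 0 → s = 0) → (t = 1 → s = 1) →
  0 ≤ kl s t ∧ 0 ≤ phi t ∧ phi t ≤ 1 ∧ phi s ≤ 16 * phi t + 16 * kl s t

/-- **ACP** (short-medium). Basic facts. `fl v x` agrees with `x` on `C`; the `y` which agree with `x` on `C` agree with `x` or with `fl v x` on `insert v C`, so `w C x = w (insert v C) x + w (insert v C) (fl v x)`. -/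
def ACP_stmt : Prop := ∀ (m : ℕ) (Q : Om m → ℝ), Law Q → ∀ (C : Finset (Fin m)) (v : Fin m) (x : Om m),
  (∀ y, (∀ u ∈ C, y u = x u) → w Q C y = w Q C x) ∧ Q x ≤ w Q C x ∧ w Q C x ≤ 1 ∧ w Q ∅ x = 1 ∧ w Q univ x = Q x ∧
  (∀ C', C ⊆ C' → w Q C' x ≤ w Q C x) ∧
  (v ∉ C → (∀ y, (∀ u ∈ insert v C, y u = x u) → a Q C v y = a Q C v x) ∧ 0 ≤ a Q C v x ∧ a Q C v x ≤ 1 ∧
    (0 < Q x → 0 < a Q C v x ∧ a Q C v (fl v x) = 1 - a Q C v x))

/-- **CEX** (medium). Conditional expectation given the cell of `C`: inside a cell (of positive weight) the value at `v` is that of `x` with probability `a`. Proof: if `w Q (C x) x > 0`, `Q x Ψ x = ∑_(y in the cell of x) Q x Q y Ψ x / w`; exchange the two sums (`x ~ y` is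
symmetric on `Gd`, `w` is constant on cells): `= ∑_y Q y (∑_(x in the cell of y) Q x Ψ x) / w`, and the inner sum is `w (insert v C) y Ψ y + w (insert v C) (fl v y) Ψ (fl v y)`. -/
def CEX_stmt : Prop := ∀ (m : ℕ) (Q : Om m → ℝ), Law Q → ∀ (v : Fin m) (C : Om m → Finset (Fin m)) (Gd : Finset (Om m)) (Ψ : Om m → ℝ),
  (∀ x ∈ Gd, v ∉ C x ∧ (∀ y, (∀ u ∈ C x, y u = x u) → C y = C x ∧ y ∈ Gd) ∧ ∀ y, (∀ u ∈ insert v (C x), y u = x u) → Ψ y = Ψ x) →
  ∑ x ∈ Gd, Q x * Ψ x = ∑ x ∈ Gd, Q x * (a Q (C x) v x * Ψ x + (1 - a Q (C x) v x) * Ψ (fl v x))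

/-- **TLS** (short-medium). Telescoping along the coins of `S' \ S` in increasing order (induction on the number of coins: remove the largest `v` of `S' \ S`; then `S ∪ (S' ∩ pa v) = S' \ {v}`... if elements of `S` are larger than `v` they are in `S` anyway). -/
def TLS_stmt : Prop := ∀ (m : ℕ) (Q : Om m → ℝ), Law Q → ∀ (x : Om m), 0 < Q x → ∀ S S' : Finset (Fin m), S ⊆ S' →
  log (w Q S' x) = log (w Q S x) + ∑ v ∈ S' \ S, log (a Q (S ∪ (S' ∩ pa v)) v x)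

/-- **LOG** (medium). uses: `ACP_stmt CEX_stmt INQ_stmt`. Two consequences of CEX for a fixed coin. (1) `Ψ x = log (2 * a Q (C x) v x)`, `a (fl v x) = 1 - a x`: the expectation of `log (2 a)` is that of `phi a`. (2) For two adapted sets `C ⊆ C'`: `Ψ x = log (a' / a)`, `a' = a Q (C' x) v x`,
`a = a Q (C x) v x`, cells of `C'`: the expectation is that of `kl a' a` (`Q x > 0`: `a (fl v x) = 1 - a`, `a' (fl v x) = 1 - a'`). (Terms with `Q x = 0` vanish; `a = 1` implies `a' = 1` because `w (insert v C) (fl v x) = 0` implies the same for `C'`.) -/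
def LOG_stmt : Prop := ∀ (m : ℕ) (Q : Om m → ℝ), Law Q → ∀ (v : Fin m) (C C' : Om m → Finset (Fin m)) (Gd : Finset (Om m)),
  (∀ x ∈ Gd, v ∉ C' x ∧ C x ⊆ C' x ∧ (∀ y, (∀ u ∈ C x, y u = x u) → C y = C x) ∧ (∀ y, (∀ u ∈ C' x, y u = x u) → C' y = C' x ∧ y ∈ Gd)) →
  ∑ x ∈ Gd, Q x * log (2 * a Q (C' x) v x) = ∑ x ∈ Gd, Q x * phi (a Q (C' x) v x) ∧
  ∑ x ∈ Gd, Q x * (log (a Q (C' x) v x) - log (a Q (C x) v x)) = ∑ x ∈ Gd, Q x * kl (a Q (C' x) v x) (a Q (C x) v x) ∧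
  ∑ x ∈ Gd, Q x * log (a Q (C x) v x) ≤ ∑ x ∈ Gd, Q x * log (a Q (C' x) v x)

/-- **RA** (medium). uses: `ACP_stmt TLS_stmt LOG_stmt`. `log (2 ^ #S' w S') - log (2 ^ #S w S) = ∑_(v ∈ S' \ S) log (2 a (S ∪ (S' ∩ pa v)) v)` (`S = S i x`, `S' = S (i+1) x`, TLS). For fixed `v` let `Gd = {x | v ∈ S (i+1) x \ S i x}`; LOG (3) with `C x = S i x ∪ (S (i+1) x ∩ pa v)`,
`C' x = S i x ∪ pa v`, then LOG (1) for `C'`. Sum over `v` (exchange of the sums). -/
def RA_stmt : Prop := ∀ (m : ℕ) (Q : Om m → ℝ), Law Q → ∀ (S : ℕ → Om m → Finset (Fin m)), Rounds S → ∀ i : ℕ, KT Q (S (i + 1)) ≤ KT Q (S i) + G Q S i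

/-- **RB** (medium). uses: `ACP_stmt TLS_stmt LOG_stmt INQ_stmt`. For `x` with `Q x > 0`, TLS with `S' = univ` for `S = S j x` and for `S = ∅`: `∑_(v ∉ S j x) (log a' - log a) = ∑_(v ∈ S j x) log a - log (w Q (S j x) x)`, where `a = a Q (pa v) v x`, `a' = a Q (S j x ∪ pa v) v x`.
Expectation: the left side is `D j` (LOG (2), `Gd = {x | v ∉ S j x}`), the right side is `E ∑_(v ∈ S j x) log (2 a) - KT (S j)`. For `i < j`, `v`, `Gd = {x | v ∈ S (i+1) x \ S i x}`, `a' = a Q (S i x ∪ pa v) v x`: `E log (2 a) = E log (2 a') - E (log a' - log a) = E phi a' - E kl a' a ≤ E phi a'`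
(LOG (1), (2), INQ). Sum over `v` and `i`: `E ∑_(v ∈ S j x) log (2 a) ≤ ∑_(i < j) G i`. -/
def RB_stmt : Prop := ∀ (m : ℕ) (Q : Om m → ℝ), Law Q → ∀ (S : ℕ → Om m → Finset (Fin m)), Rounds S → ∀ j : ℕ, D Q S j + KT Q (S j) ≤ ∑ i ∈ range j, G Q S i

/-- **AVG** (short-medium). Inside a cell (`2 ^ (m - #S)` configurations) the law `Q` and its average `w / 2 ^ (m - #S)` have the same sum. (Write `Q x g x`, exchange sums over `x` and over `y` in the cell of `x`: `∑_x Q x g x = ∑_x ∑_(y ~ x) Q y g x / 2 ^ (m - #(S x))`.) -/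
def AVG_stmt : Prop := ∀ (m : ℕ) (Q : Om m → ℝ), Law Q → ∀ (S : Om m → Finset (Fin m)), Adp S → ∀ g : Om m → ℝ, (∀ x y, (∀ u ∈ S x, y u = x u) → g y = g x) →
  ∑ x, Q x * g x = ∑ x, (2 ^ #(S x) * w Q (S x) x) * g x / 2 ^ m

/-- **YNG** (short-medium). uses: `AVG_stmt ACP_stmt`. `r x = 2 ^ #(S x) * w Q (S x) x`; `r ≤ r log r - r + e` (for the `x` in `F`), `0 ≤ r log r - r + 1` (others). By AVG `Q F = ∑ r 1_F / 2^m`, `KT = ∑ r log r / 2^m`, `∑ r / 2^m = 1`: `Q F ≤ KT - 1 + (e |F| + |F^c|)/2^m = KT + (e - 1) |F|/2^m`. -/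
def YNG_stmt : Prop := ∀ (m : ℕ) (Q : Om m → ℝ), Law Q → ∀ (S : Om m → Finset (Fin m)), Adp S → 0 ≤ KT Q S ∧
  ∀ F : Finset (Om m), (∀ x ∈ F, ∀ y, (∀ u ∈ S x, y u = x u) → y ∈ F) → ∑ x ∈ F, Q x ≤ KT Q S + 2 * (#F : ℝ) / 2 ^ m

/-- **MAI** (short-medium). uses: `ACP_stmt INQ_stmt RA_stmt RB_stmt YNG_stmt`. `H j = ∑_(i < j) G i`. `KT (S j) ≤ H j` (RA, `KT (S 0) = 0`), `D j ≤ H j` (RB, `KT ≥ 0`; `S j` is adapted), `G j ≤ 16 (X (S (j+1)) - X (S j)) + 16 D j` (INQ pointwise, `kl ≥ 0` for the other coins;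
only `x` with `Q x > 0` matter). So `H (j+1) ≤ 17 H j + 16 (X (S (j+1)) - X (S j))` and `H j ≤ 17 ^ j X (S j)`. -/
def MAI_stmt : Prop := ∀ (m : ℕ) (Q : Om m → ℝ), Law Q → ∀ (S : ℕ → Om m → Finset (Fin m)), Rounds S → ∀ j : ℕ, KT Q (S j) ≤ 17 ^ j * X Q (S j)

/-- **KLQ** (short-medium). uses: `ACP_stmt TLS_stmt LOG_stmt`. LOG (1) with `C = C' = pa v`, `Gd = univ`, TLS with `S = ∅`, `S' = univ`: the left side is `∑ Q log (2 ^ m Q)`. -/
def KLQ_stmt : Prop := ∀ (m : ℕ) (Q : Om m → ℝ), Law Q → ∀ L : ℝ, (∀ x, Q x ≤ exp L / 2 ^ m) → ∑ v : Fin m, ∑ x, Q x * phi (a Q (pa v) v x) ≤ L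

/-- **LOC** (short-medium). `Q` depends only on the coins in `Λ`. (1) The map which replaces the coordinates outside `Λ` of the `z` with `z = x` on `C` (exchange `x u` and `y u` by flipping where `x u ≠ y u`, `u ∉ Λ`) is a bijection between the two cells which does not change `Q`. (2) `fl v` is a bijection between the two halves of the
cell of `C` and does not change `Q`. -/
def LOC_stmt : Prop := ∀ (m : ℕ) (Q : Om m → ℝ) (Λ : Finset (Fin m)), (∀ x y : Om m, (∀ u ∈ Λ, x u = y u) → Q x = Q y) → ∀ C : Finset (Fin m),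
  (∀ x y : Om m, (∀ u ∈ Λ, x u = y u) → w Q C x = w Q C y) ∧ ∀ v, v ∉ Λ → v ∉ C → ∀ x : Om m, w Q (insert v C) x = w Q C x / 2

/-- **SML** (short-medium). `M = #s + 3`. Terms with `n u ≥ 1/M²`: `(A + log (1/n u)) ^ j ≤ (3 A) ^ j`. Terms with `n u < 1/M²`: `(A + log (1/n)) ^ j ≤ A ^ j (1 + log (1/n)) ^ j`, `√n (1 + log (1/n)) ^ j ≤ C_j` for `0 < n ≤ 1` (for example `1 + log (1/n) ≤ (2 j + 1) n ^ (-1/(2 j + 1))`... or
`Real.add_one_le_exp`), `√n ≤ 1/M`, at most `M` terms. -/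
def SML_stmt : Prop := ∀ j : ℕ, ∃ C : ℝ, 0 < C ∧ ∀ (ι : Type) (s : Finset ι) (n : ι → ℝ) (L A : ℝ), (∀ u ∈ s, 0 < n u ∧ n u ≤ 1) → ∑ u ∈ s, n u ≤ L → 1 ≤ A → log (#s + 3) ≤ A →
  ∑ u ∈ s, n u * (A + log (1 / n u)) ^ j ≤ C * (L + 1) * A ^ j

open Classical in
/-- **ENT** (medium-long, critical). uses: `ACP_stmt INQ_stmt YNG_stmt MAI_stmt KLQ_stmt LOC_stmt SML_stmt`. Induction on `j` (`N ≥ 0` as it bounds probabilities; `A = L + log (#Λ + 3) ≥ 1`). `j = 0`: `S τ 1` does not depend on `x` (`Rounds`, `S τ 0 = ∅`), so for each `τ` the sum over `x` is 0 or 1, as for fair coins: `≤ N`.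
Step: `F = {x | v ∈ S τ (j+2) x}` is a union of cells of `S τ (j+1)` (adapted): YNG and MAI give `∑_τ ≤ 17^(j+1) ∑_τ X Q (S τ (j+1)) + 2 N`. Exchange: `∑_τ X = ∑_u ∑_x Q x phi(a Q (pa u) u x) #{τ | u ∈ S τ (j+1) x}`; for `u ∉ Λ` `a = 1/2` where `Q x > 0` (LOC (2)), `phi (1/2) = 0`. For `u ∈ Λ` with
`n_u = ∑_x Q x phi(a Q (pa u) u x) > 0` (`≤ 1`; if `n_u = 0` the term vanishes) `R_u x = Q x phi(..) / n_u` is a law which depends only on the coins in `Λ` (LOC (1)), `R_u x ≤ exp (L + log (1/n_u)) / 2^m` (`phi ≤ 1`): by induction the term is `≤ n_u C N (A + log (1/n_u)) ^ j`. Sum over `u ∈ Λ`: KLQ (`∑ n_u ≤ L`) and SML: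
`≤ C N C' (L + 1) A ^ j ≤ C N C' A ^ (j+1)` (`L + 1 ≤ A`). So `C_(j+1) = 17^(j+1) C C' + 2`. -/
def ENT_stmt : Prop := ∀ j : ℕ, ∃ C : ℝ, 0 < C ∧ ∀ (m : ℕ) (κ : Type) (T : Finset κ) (S : κ → ℕ → Om m → Finset (Fin m)) (Λ : Finset (Fin m)) (z : Fin m) (N : ℝ), (∀ τ ∈ T, Rounds (S τ)) →
  (∀ i : ℕ, ∀ v ∈ insert z Λ, ∑ τ ∈ T, (#{x : Om m | v ∈ S τ i x} : ℝ) / 2 ^ m ≤ N) →
  ∀ (Q : Om m → ℝ) (L : ℝ), Law Q → (∀ x y : Om m, (∀ u ∈ Λ, x u = y u) → Q x = Q y) → 0 ≤ L → (∀ x, Q x ≤ exp L / 2 ^ m) →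
  ∀ v ∈ insert z Λ, ∑ τ ∈ T, ∑ x with v ∈ S τ (j + 1) x, Q x ≤ C * N * (L + log (#Λ + 3)) ^ j

end EN
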