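import Pool.Agent.helper63.EN.INQ
import Pool.Agent.helper58.EN.ACP
import Pool.Agent.helper20.EN.CEX
import Pool.Agent.helper60.EN.TLS
import Pool.Agent.helper42.EN.LOG
import Pool.Agent.helper21.EN.RA
import Pool.Agent.helper18.EN.RBb
import Pool.Agent.helper33.EN.AVG
import Pool.Agent.helper99.EN.YNG
import Pool.Agent.helper79.EN.MAI
import Pool.Agent.helper51.EN.KLQ
import Pool.Agent.helper1.EN.LOC
import Pool.Agent.helper96.EN.SML
import Pool.Agent.helper66.EN.ENTc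

/-!
# Project EN (MP_f42afa_pr): assembly of the entropy theorem
-/

set_option autoImplicit false

namespace EN

theorem AsmE_CEX : CEX_stmt := CEX ACP
theorem AsmE_TLS : TLS_stmt := TLS ACP
theorem AsmE_LOG : LOG_stmt := LOG ACP AsmE_CEX INQ
theorem AsmE_RA : RA_stmt := RA ACP AsmE_TLS AsmE_LOG
theorem AsmE_RB : RB_stmt := RB ACP AsmE_TLS AsmE_LOG INQ
theorem AsmE_YNG : YNG_stmt := YNG ACP (AVG ACP)
theorem AsmE_MAI : MAI_stmt := MAI ACP INQ AsmE_RA AsmE_RB AsmE_YNG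
theorem AsmE_KLQ : KLQ_stmt := KLQ ACP AsmE_TLS AsmE_LOG
theorem AsmE_ENT : ENT_stmt := ENT ACP INQ AsmE_YNG AsmE_MAI AsmE_KLQ LOC SML

end EN
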