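import Pool.Agent.helper25.TWO.Asm
import Pool.Agent.helper48.TH.Spec2
import Pool.Agent.helper27.TH.VSG
import Pool.Agent.helper15.TH.SPG
import Pool.Agent.helper29.TH.SUG
import Pool.Agent.helper64.TH.ZCH
import Pool.Agent.helper11.TH.PLR
import Pool.Agent.helper61.TH.SHI
import Pool.Agent.helper33.TH.SHP
import Pool.Agent.helper21.TH.PRNa

/-!
# Projects TH, EN (MP_f42afa_pr): assembly of the geometric part for a general random set
-/

set_option autoImplicit false

namespace TP.TW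

open DP

theorem AsmG_SHP : SHP_stmt := SHP PRN

theorem AsmG_ZCH : ZCH_stmt := ZCH DP.Asm_RC CT0 (MEN DP.Asm_HX) LCR EIN Asm_BKM Asm_QRS

theorem AsmG_VSG : VSG_stmt := VSG MNO SHI AsmG_SHP AsmG_ZCH PLR

theorem AsmG_SPG : SPG_stmt := SPG ANR AsmG_VSG

theorem AsmG_SUG : SUG_stmt := SUG CV AsmG_SPG

end TP.TW
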