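import Pool.Agent.helper25.EN.SpecV
import Pool.Agent.helper25.TWO.FIN

/-!
# Project EN (MP_f42afa_pr): the final counting for algorithms in rounds
-/

set_option autoImplicit false

namespace TP.TW

open DP MeasureTheory Finset

/-- The sets seen by an algorithm in rounds on the `n × n` rhombus: `S i x` = the sites asked in the
first `i` rounds; the next batch depends only on the states seen. -/
def FRo (n : ℕ) (S : ℕ → (Fin n × Fin n → Bool) → Finset (Fin n × Fin n)) : Prop :=
  (∀ x, S 0 x = ∅) ∧ ∀ i x, S i x ⊆ S (i + 1) x ∧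
    ∀ y : Fin n × Fin n → Bool, (∀ p ∈ S i x, y p = x p) → S (i + 1) y = S (i + 1) x

/-- The sets seen, on the lattice. -/
def FNR_lift {n : ℕ} (S : ℕ → (Fin n × Fin n → Bool) → Finset (Fin n × Fin n)) (i : ℕ)
    (β : V → Bool) : Finset V := (S i fun p => β (phi p)).image phi

theorem FNR_VRo {n : ℕ} {S : ℕ → (Fin n × Fin n → Bool) → Finset (Fin n × Fin n)}
    (hS : FRo n S) : VRo (FNR_lift S) ((univ : Finset (Fin n × Fin n)).image phi) := by
  refine ⟨fun β => ?_, fun i β => ?_, fun i β => ?_, fun i β β' h => ?_⟩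
  · simp only [FNR_lift, hS.1, Finset.image_empty]
  · exact Finset.image_subset_image (hS.2 i _).1
  · exact Finset.image_subset_image (Finset.subset_univ _)
  · simp only [FNR_lift]
    rw [(hS.2 i (fun p => β (phi p))).2 (fun p => β' (phi p))]
    intro p hp
    exact h (phi p) (Finset.mem_image_of_mem phi hp)

theorem FNR_card {n : ℕ} (S : (Fin n × Fin n → Bool) → Finset (Fin n × Fin n)) :
    ∑ x : Fin n × Fin n → Bool, (#(S x) : ℝ) =
      ∑ p : Fin n × Fin n, (#{x : Fin n × Fin n → Bool | p ∈ S x} : ℝ) := by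
  have h1 : ∀ x : Fin n × Fin n → Bool, (#(S x) : ℝ) =
      ∑ p : Fin n × Fin n, if p ∈ S x then (1 : ℝ) else 0 := by
    intro x
    rw [Finset.sum_ite_mem, Finset.univ_inter]
    simp
  have h2 : ∀ p : Fin n × Fin n, (#{x : Fin n × Fin n → Bool | p ∈ S x} : ℝ) =
      ∑ x : Fin n × Fin n → Bool, if p ∈ S x then (1 : ℝ) else 0 := by
    intro p
    rw [Finset.card_filter]
    push_cast
    rfl
  rw [Finset.sum_congr rfl fun x _ => h1 x, Finset.sum_congr rfl fun p _ => h2 p, Finset.sum_comm]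

theorem FNR_pr (br2 : BR2_stmt) {n : ℕ} (E : (Fin n × Fin n → Bool) → Prop) [DecidablePred E] :
    Pr {β : V → Bool | E (fun p => β (phi p))} =
      (#{x : Fin n × Fin n → Bool | E x} : ℝ) / 2 ^ (n * n) := by
  rw [br2 n E]
  congr 3
  ext x
  simp

theorem FNR (sug : SUG_stmt) (dr : DR_stmt) (rea : REA_stmt) (reb : REB_stmt) (br1 : BR1_stmt)
    (br2 : BR2_stmt) : ∀ R : ℕ, ∃ c : ℝ, 0 < c ∧ ∀ n : ℕ, 2 ≤ n →
      ∀ S : ℕ → (Fin n × Fin n → Bool) → Finset (Fin n × Fin n), FRo n S →
        (∀ x y : Fin n × Fin n → Bool, (∀ p ∈ S (R + 2) x, y p = x p) →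
          (Crossing n x ↔ Crossing n y)) →
        c * (n : ℝ) ^ 2 / Real.log n ^ (R + 1) ≤
          (∑ x : Fin n × Fin n → Bool, (#(S (R + 2) x) : ℝ)) / 2 ^ (n * n) := by
  classical
  have := TWO_prob
  intro R
  obtain ⟨K, hK, hdr⟩ := dr R
  obtain ⟨C, hC, hsug⟩ := sug R
  refine ⟨1 / (2 ^ (R + 1) + C * K), by positivity, fun n hn S hS hdec => ?_⟩
  have hlog := TWO_log hn
  have hlog0 : (0 : ℝ) < Real.log n := by linarith
  have hpow : (0 : ℝ) < 2 ^ (n * n) := by positivity
  have hRS := hdr _ (FNR_lift S) (fun v hv => by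
    obtain ⟨p, -, rfl⟩ := Finset.mem_image.mp hv
    exact phi_br p) (FNR_VRo hS)
  have hbad := hsug n (FNR_lift S (R + 1)) _ _ K hn (Finset.Subset.refl _) hRS
  -- the average cost
  obtain ⟨cost, hcost⟩ : ∃ cost : ℝ, cost =
      (∑ x : Fin n × Fin n → Bool, (#(S (R + 2) x) : ℝ)) / 2 ^ (n * n) := ⟨_, rfl⟩
  rw [← hcost]
  have hcost' : cost = ∑ p : Fin n × Fin n,
      (#{x : Fin n × Fin n → Bool | p ∈ S (R + 2) x} : ℝ) / 2 ^ (n * n) := by
    rw [hcost, FNR_card, Finset.sum_div]
  have hinj : ∀ p ∈ (univ : Finset (Fin n × Fin n)), ∀ q ∈ (univ : Finset (Fin n × Fin n)),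
      phi p = phi q → p = q := fun p _ q _ h => phi_inj h
  rw [Finset.sum_image hinj, Finset.sum_image hinj] at hbad
  -- the weight
  have hw : ∑ p : Fin n × Fin n, Pr {β : V → Bool | phi p ∈ FNR_lift S (R + 1) β} ≤ cost := by
    rw [hcost']
    refine Finset.sum_le_sum fun p _ => ?_
    have h1 : {β : V → Bool | phi p ∈ FNR_lift S (R + 1) β} =
        {β : V → Bool | p ∈ S (R + 1) fun q => β (phi q)} := by
      ext β
      simp only [FNR_lift, Set.mem_ofPred_eq]
      constructor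
      · intro h
        obtain ⟨q, hq, hqp⟩ := Finset.mem_image.mp h
        rwa [← phi_inj hqp]
      · exact fun h => Finset.mem_image_of_mem phi h
    have h2 := FNR_pr br2 (n := n) (fun x => p ∈ S (R + 1) x)
    rw [h1, h2]
    refine div_le_div_of_nonneg_right ?_ hpow.le
    have h3 : ({x : Fin n × Fin n → Bool | p ∈ S (R + 1) x} : Finset _) ⊆
        ({x : Fin n × Fin n → Bool | p ∈ S (R + 2) x} : Finset _) := by
      intro x hx
      simp only [Finset.mem_filter, Finset.mem_univ, true_and] at hx ⊢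
      exact (hS.2 (R + 1) x).1 hx
    exact_mod_cast Finset.card_le_card h3
  -- every site is seen or bad
  have hp : ∀ p : Fin n × Fin n, 1 ≤
      Pr {β : V → Bool | BAD (col β) (FNR_lift S (R + 1) β) (phi p)} +
        (#{x : Fin n × Fin n → Bool | p ∈ S (R + 2) x} : ℝ) / 2 ^ (n * n) := by
    intro p
    rw [← FNR_pr br2 (fun x => p ∈ S (R + 2) x)]
    have hsub : (Set.univ : Set (V → Bool)) ⊆
        {β : V → Bool | BAD (col β) (FNR_lift S (R + 1) β) (phi p)} ∪
          {β : V → Bool | p ∈ S (R + 2) fun q => β (phi q)} := by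
      intro β _
      by_cases hb : BAD (col β) (FNR_lift S (R + 1) β) (phi p)
      · exact Or.inl hb
      · refine Or.inr ?_
        show p ∈ S (R + 2) fun q => β (phi q)
        by_cases hpS : p ∈ S (R + 1) fun q => β (phi q)
        · exact (hS.2 (R + 1) _).1 hpS
        · obtain ⟨-, y, y', hy, hy', hcy, hcy'⟩ :=
            rel_of_not_bad rea reb br1 (by omega) (S (R + 1) fun q => β (phi q)) β p hpS hb
          by_contra hpB
          have h1 : S (R + 2) y = S (R + 2) fun q => β (phi q) := (hS.2 (R + 1) _).2 y hy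
          refine hcy' ((hdec y y' fun q hq => ?_).mp hcy)
          rw [h1] at hq
          exact hy' q fun h => hpB (h ▸ hq)
    have h1 : (1 : ℝ) = P1.real Set.univ := by simp
    have h2 := measureReal_mono (μ := P1) hsub
    have h3 := measureReal_union_le (μ := P1)
      {β : V → Bool | BAD (col β) (FNR_lift S (R + 1) β) (phi p)}
      {β : V → Bool | p ∈ S (R + 2) fun q => β (phi q)}
    have h4 : Pr {β : V → Bool | BAD (col β) (FNR_lift S (R + 1) β) (phi p)} =
      P1.real {β : V → Bool | BAD (col β) (FNR_lift S (R + 1) β) (phi p)} := rfl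
    have h5 : Pr {β : V → Bool | p ∈ S (R + 2) fun q => β (phi q)} =
      P1.real {β : V → Bool | p ∈ S (R + 2) fun q => β (phi q)} := rfl
    rw [h4, h5]
    linarith
  have hsum := Finset.sum_le_sum fun p (_ : p ∈ (univ : Finset (Fin n × Fin n))) => hp p
  rw [Finset.sum_add_distrib, ← hcost'] at hsum
  have hn2 : ∑ _p : Fin n × Fin n, (1 : ℝ) = (n : ℝ) ^ 2 := by
    simp [Fintype.card_prod, sq]
  rw [hn2] at hsum
  have hcost0 : 0 ≤ cost := by rw [hcost]; positivity
  have hl : (1 : ℝ) ≤ 2 ^ (R + 1) * Real.log n ^ (R + 1) := by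
    rw [← mul_pow]
    exact one_le_pow₀ (by linarith)
  have h6 : C * K * Real.log n ^ (R + 1) *
      ∑ p : Fin n × Fin n, Pr {β : V → Bool | phi p ∈ FNR_lift S (R + 1) β} ≤
      C * K * Real.log n ^ (R + 1) * cost := mul_le_mul_of_nonneg_left hw (by positivity)
  have h7 : (n : ℝ) ^ 2 ≤ (2 ^ (R + 1) + C * K) * (Real.log n ^ (R + 1) * cost) := by
    nlinarith
  have h8 : (0 : ℝ) < 2 ^ (R + 1) + C * K := by positivity
  have h9 : (0 : ℝ) < Real.log n ^ (R + 1) := by positivity
  rw [div_le_iff₀ h9, one_div, ← div_eq_inv_mul, div_le_iff₀ h8]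
  linarith

end TP.TW
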