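import Pool.Agent.helper25.EN.AsmE
import Pool.Agent.helper25.EN.AsmG
import Pool.Agent.helper25.EN.FNR
import Pool.Agent.helper29.EN.DRb

/-!
# Project EN (MP_f42afa_pr): assembly, every fixed number of rounds
-/

set_option autoImplicit false

namespace TP.TW

open DP Finset

theorem AsmR_DR : DR_stmt := DR EN.AsmE_ENT PRN AsmG_SHP

theorem AsmR_FNR : ∀ R : ℕ, ∃ c : ℝ, 0 < c ∧ ∀ n : ℕ, 2 ≤ n →
      ∀ S : ℕ → (Fin n × Fin n → Bool) → Finset (Fin n × Fin n), FRo n S →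
        (∀ x y : Fin n × Fin n → Bool, (∀ p ∈ S (R + 2) x, y p = x p) →
          (Crossing n x ↔ Crossing n y)) →
        c * (n : ℝ) ^ 2 / Real.log n ^ (R + 1) ≤
          (∑ x : Fin n × Fin n → Bool, (#(S (R + 2) x) : ℝ)) / 2 ^ (n * n) :=
  FNR AsmG_SUG AsmR_DR (REA (TP.TQD DP.Asm_HX)) REB BR1 BR2

end TP.TW
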