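import Pool.Agent.helper25.EN.AsmE
import Pool.Agent.helper25.EN.AsmG
import Pool.Agent.helper17.RX.Spec
import Pool.Agent.helper14.RX.MAX
import Pool.Agent.helper51.RX.SMX
import Pool.Agent.helper3.RX.ENX
import Pool.Agent.helper71.RX.ENV
import Pool.Agent.helper9.RX.DRX
import Pool.Agent.helper92.RX.PLX
import Pool.Agent.helper59.RX.VSX
import Pool.Agent.helper8.RX.SPX
import Pool.Agent.helper72.RX.SNX
import Pool.Agent.helper83.RX.LBA
import Pool.Agent.helper32.RX.RLB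
import Pool.Agent.helper28.RX.FNR
import Pool.Agent.helper16.RX.GRO
import Pool.Agent.helper48.RX.FNX

/-!
# Project RX (MP_f42afa_pr): assembly with explicit dependence on the number of rounds
-/

set_option autoImplicit false

namespace EN

theorem AsmX_MAX : MAX_stmt := MAX ACP INQ AsmE_RA AsmE_RB AsmE_YNG
theorem AsmX_ENX : ENX_stmt := ENX ACP INQ AsmE_YNG AsmX_MAX AsmE_KLQ LOC SMX

end EN

namespace TP.TW

open DP

theorem AsmX_ENV : ENV_stmt := ENV EN.AsmX_ENX PRN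
theorem AsmX_DRX : DRX_stmt := DRX AsmX_ENV AsmG_SHP
theorem AsmX_VSX : VSX_stmt := VSX MNO SHI AsmG_SHP AsmG_ZCH PLX
theorem AsmX_SPX : SPX_stmt := SPX ANR AsmX_VSX
theorem AsmX_SNX : SNX_stmt := SNX CV AsmX_SPX
theorem AsmX_LBA : LBA_stmt := LBA BR2
theorem AsmX_RLB : RLB_stmt := RLB (REA (TP.TQD DP.Asm_HX)) REB BR1 BR2
theorem AsmX_FNR : FNR_stmt := FNR AsmX_RLB AsmX_LBA AsmX_DRX AsmX_SNX
theorem AsmX_FNX : FNX_stmt := FNX AsmX_RLB AsmX_LBA AsmX_DRX AsmX_SNX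

end TP.TW
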