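import Pool.Agent.helper48.TH.Spec2
import Pool.Agent.helper25.EN.Spec

/-!
# Project EN, second file: from the cube to the coins of the lattice (MP_f42afa_pr, r rounds)
-/

set_option autoImplicit false

namespace TP.TW

open DP MeasureTheory Finset

/-- An algorithm in rounds on the coins of `Ω`: `S i β` = the coins seen in the first `i` rounds. -/
def VRo (S : ℕ → (V → Bool) → Finset V) (Ω : Finset V) : Prop :=
  (∀ β, S 0 β = ∅) ∧ (∀ i β, S i β ⊆ S (i + 1) β) ∧ (∀ i β, S i β ⊆ Ω) ∧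
  ∀ i (β β' : V → Bool), (∀ v ∈ S i β, β' v = β v) → S (i + 1) β' = S (i + 1) β

/-- **DR** (medium-long, critical; three provers). uses: `EN.ENT_stmt PRN_stmt SHP_stmt`. `K` = the constant `C` of ENT for `j = R`. RS: `S i β = S i β'` if `β = β'` on `Ω` (induction on `i`); `w v = Pr ∅ = 0` outside `Ω`; the rest is clear except DEC. DEC: given `T U Λ z E`. If `Pr E = 0` the left side is 0 (monotone).
Otherwise `W = Λ ∪ {z} ∪ ⋃_(τ ∈ T) (Ω + τ)`, `ε : Fin m → V` an injective enumeration of `W`, for `x : Fin m → Bool` let `β_x (ε i) = x i`, `false` elsewhere. `E` depends only on `Λ ⊆ W`, so by PRN `Pr E = #{x | β_x ∈ E} / 2 ^ m` (`P x := β_x ∈ E`; `β ∈ E ↔ β_(β ∘ ε) ∈ E`). For `τ ∈ T`: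
`S' τ i x = {j | ε j - τ ∈ S (min i (R+1)) (shift τ β_x)}`, `shift τ β v = β (v + τ)`. `EN.Rounds (S' τ)`: if `y = x` on `S' τ i x` then `shift τ β_y = shift τ β_x` on `S i (shift τ β_x)` (`v ∈ S i ⊆ Ω` gives `v + τ ∈ W`, `= ε j`, `j ∈ S' τ i x`). `Q x = if β_x ∈ E then 1/(2^m Pr E) else 0`, `L = log (1/Pr E)`,
`Λ' = {j | ε j ∈ Λ}` (`#Λ' ≤ #Λ`), `z' = ε⁻¹ z`, `N = ∑_(u ∈ U) w u`: for `v ∈ insert z' Λ'`, `#{x | v ∈ S' τ i x}/2^m = Pr {β | ε v - τ ∈ S i (shift τ β)}` (PRN; the event depends only on the coins in `Ω + τ`) `= Pr {β | ε v - τ ∈ S i β}` (SHP) `≤ w (ε v - τ)` (`S i ⊆ S (R+1)`), and `τ ↦ ε v - τ` is injective with values in `U`.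
ENT (`j = R`, `v = z'`) times `Pr E`: `∑_τ Pr (E ∩ {z - τ ∈ S (R+1) (shift τ β)}) ≤ C N Pr E (L + log (#Λ' + 3))^R` (PRN for the intersection), and `log (#Λ' + 3) ≤ log (#T + #Λ + 3)`. -/
def DR_stmt : Prop := ∀ R : ℕ, ∃ K : ℝ, 0 < K ∧ ∀ (Ω : Finset V) (S : ℕ → (V → Bool) → Finset V), (∀ v ∈ Ω, br v = v) → VRo S Ω →
  RS (S (R + 1)) Ω (fun v => Pr {β | v ∈ S (R + 1) β}) R K

end TP.TW
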